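import Pool.Agent.H355R3.UF.Stmts

set_option autoImplicit false

namespace H651R4.UF

open H355R3 H355R3.UF RegularWreathProduct

theorem taskL : H355R3.UF.TaskL := by
  classical
  intro M K _ _ _ _ Q hQn hQ hex
  obtain ⟨q, hq, hy⟩ := hex
  have hR : ∀ r ∈ Q ⊓ (rightHom : RegularWreathProduct M K →* K).ker, r.right = 1 :=
    fun r hr => hr.2
  have hn : Group.IsNilpotent
      (Q ⊓ (rightHom : RegularWreathProduct M K →* K).ker : Subgroup _) :=
    nilpotent_of_injective (Subgroup.inclusion inf_le_left) (Subgroup.inclusion_injective _) hQ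
  have := hn
  refine Group.nilpotent_of_surjective
    (coord (Q ⊓ (rightHom : RegularWreathProduct M K →* K).ker) hR 1) ?_
  intro m
  let b : RegularWreathProduct M K := ⟨Pi.mulSingle 1 m, 1⟩
  have hc : b * q * b⁻¹ * q⁻¹ ∈ Q := Q.mul_mem (hQn.conj_mem q hq b) (Q.inv_mem hq)
  have hr : (b * q * b⁻¹ * q⁻¹).right = 1 := by
    simp [b]
  refine ⟨⟨b * q * b⁻¹ * q⁻¹, hc, hr⟩, ?_⟩
  show (b * q * b⁻¹ * q⁻¹).left 1 = m
  have hne : (q.right)⁻¹ ≠ 1 := by simpa using hy
  simp [b, hne]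

end H651R4.UF
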